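import Pool.Agent.Lib.MP_e3f158_nt.SN.Near
import Pool.Agent.Lib.MP_e3f158_nt.WA.Final

/-!
# Sums of `O(log* n)` even integers of type `(a, b)`, and of `O(log* n)` iterated primes
-/

namespace Pool.Agent.Lib.MP_e3f158_nt.SN

open Filter
open Pool.Agent.Lib.MP_e3f158_nt

theorem windows_all (a b : ℕ) : ∃ c : ℝ, 0 < c ∧ ∀ᶠ N : ℕ in Filter.atTop, ∀ W : ℕ,
    c * N * min 1 (if min a b = 0 then ((W : ℝ) + 1) / Real.log (Real.log (Real.log (Real.log N)))
      else ((W : ℝ) + 1) / (Real.log (Real.log N)) ^ (min a b + 1) +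
        1 / ((Real.log (Real.log N)) ^ (min a b) * (Real.log (Real.log (Real.log N))) ^ 3)) ≤
      (Set.ncard {n : ℕ | 1 ≤ n ∧ n ≤ N ∧ ∃ m, n ≤ m ∧ m ≤ n + W ∧ Even m ∧ HasRep a b m} : ℝ) := by
  simp_rw [← WA.cw_eq]
  by_cases h0 : min a b = 0
  · simp only [if_pos h0]
    rcases Nat.eq_zero_or_pos b with hb | hb
    · subst hb
      exact WA.windows_zero a
    · have ha : a = 0 := by omega
      subst ha
      simp_rw [WA.cw_symm 0 b]
      exact WA.windows_zero b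
  · simp only [if_neg h0]
    rcases le_total b a with h | h
    · rw [min_eq_right h]
      exact WA.windows_add a b
    · rw [min_eq_left h]
      simp_rw [WA.cw_symm a b]
      exact WA.windows_add b a

theorem pow_loglog_le (k : ℕ) : ∀ᶠ N : ℕ in atTop, ∀ W : ℕ, Nat.sqrt (Nat.log 2 N) ≤ W →
    (Real.log (Real.log N)) ^ (k + 1) ≤ (W : ℝ) + 1 := by
  have h1 : ∀ᶠ y : ℝ in atTop, Real.log y ^ (2 * (k + 1)) ≤ y := by
    have h := (Real.isLittleO_pow_log_id_atTop (n := 2 * (k + 1))).bound one_pos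
    filter_upwards [h, eventually_ge_atTop (0 : ℝ)] with y hy hy0
    rw [one_mul, Real.norm_eq_abs, id, Real.norm_of_nonneg hy0] at hy
    exact (le_abs_self _).trans hy
  have h2 := (Real.tendsto_log_atTop.comp (tendsto_natCast_atTop_atTop (R := ℝ))).eventually h1
  filter_upwards [h2, eventually_ge_atTop 1] with N hN hN1 W hW
  simp only [Function.comp_apply] at hN
  have h3 : Real.log N ≤ (Nat.log 2 N : ℝ) + 1 := by
    have h4 : N < 2 ^ (Nat.log 2 N + 1) := Nat.lt_pow_succ_log_self (by norm_num) N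
    have h5 : (N : ℝ) ≤ 2 ^ (Nat.log 2 N + 1) := by exact_mod_cast h4.le
    have h6 := Real.log_le_log (by exact_mod_cast hN1) h5
    rw [Real.log_pow] at h6
    have h7 : Real.log 2 ≤ 1 := by linarith [Real.log_two_lt_d9]
    refine h6.trans ?_
    push_cast
    have h8 : (0 : ℝ) ≤ (Nat.log 2 N : ℝ) + 1 := by positivity
    nlinarith
  have h4 : Nat.log 2 N + 1 ≤ (Nat.sqrt (Nat.log 2 N) + 1) * (Nat.sqrt (Nat.log 2 N) + 1) :=
    Nat.succ_le_of_lt (Nat.lt_succ_sqrt _)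
  have h5 : (Nat.log 2 N : ℝ) + 1 ≤ ((W : ℝ) + 1) ^ 2 := by
    have : Nat.log 2 N + 1 ≤ (W + 1) * (W + 1) := h4.trans (by gcongr)
    have h : ((Nat.log 2 N + 1 : ℕ) : ℝ) ≤ ((W + 1) * (W + 1) : ℕ) := by exact_mod_cast this
    push_cast at h
    nlinarith
  have h6 : ((Real.log (Real.log N)) ^ (k + 1)) ^ 2 ≤ ((W : ℝ) + 1) ^ 2 := by
    rw [← pow_mul, mul_comm]
    exact hN.trans (h3.trans h5)
  exact (le_abs_self _).trans (abs_le_of_sq_le_sq h6 (by positivity))

theorem hits_even (a b : ℕ) : Hits {m | Even m ∧ HasRep a b m} := by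
  obtain ⟨c, hc, h⟩ := windows_all a b
  refine ⟨c, hc, ?_⟩
  have hlog : Tendsto (fun N : ℕ => Real.log (N : ℝ)) atTop atTop :=
    Real.tendsto_log_atTop.comp (tendsto_natCast_atTop_atTop (R := ℝ))
  have hlog2 := Real.tendsto_log_atTop.comp hlog
  have hlog3 := Real.tendsto_log_atTop.comp hlog2
  have hlog4 := Real.tendsto_log_atTop.comp hlog3
  filter_upwards [h, pow_loglog_le 0, pow_loglog_le (min a b), hlog2.eventually_gt_atTop 0,
    hlog3.eventually_gt_atTop 0, hlog4.eventually_gt_atTop 0] with N hN h1 h2 h3 h4 h5 W hW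
  simp only [Function.comp_apply] at h3 h4 h5
  have hNW := hN W
  have key : 1 ≤ (if min a b = 0 then
      ((W : ℝ) + 1) / Real.log (Real.log (Real.log (Real.log N)))
      else ((W : ℝ) + 1) / (Real.log (Real.log N)) ^ (min a b + 1) +
        1 / ((Real.log (Real.log N)) ^ (min a b) * (Real.log (Real.log (Real.log N))) ^ 3)) := by
    split_ifs with h0
    · rw [le_div_iff₀ h5, one_mul]
      have h6 := h1 W hW
      rw [zero_add, pow_one] at h6
      have h7 : Real.log (Real.log (Real.log (Real.log N))) ≤ Real.log (Real.log (Real.log N)) :=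
        Real.log_le_self h4.le
      have h8 : Real.log (Real.log (Real.log N)) ≤ Real.log (Real.log N) :=
        Real.log_le_self h3.le
      linarith
    · have h6 : 1 ≤ ((W : ℝ) + 1) / (Real.log (Real.log N)) ^ (min a b + 1) := by
        rw [le_div_iff₀ (by positivity), one_mul]
        exact h2 W hW
      have h7 : 0 ≤ 1 / ((Real.log (Real.log N)) ^ (min a b) *
          (Real.log (Real.log (Real.log N))) ^ 3) := by positivity
      linarith
  rw [min_eq_left key, mul_one] at hNW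
  exact hNW

theorem near_even (a b : ℕ) : ∃ K : ℕ, Near {m | Even m ∧ HasRep a b m} K :=
  near (hits_even a b)

theorem setGcd_ipr (a : ℕ) : Nat.setGcd {p | ∃ x, 1 ≤ x ∧ p = ipr a x} = 1 := by
  have h1 : Nat.setGcd {p | ∃ x, 1 ≤ x ∧ p = ipr a x} ∣ ipr a 1 :=
    Nat.setGcd_dvd_of_mem ⟨1, le_rfl, rfl⟩
  have h2 : Nat.setGcd {p | ∃ x, 1 ≤ x ∧ p = ipr a x} ∣ ipr a 2 :=
    Nat.setGcd_dvd_of_mem ⟨2, by norm_num, rfl⟩
  rcases (Nat.dvd_prime (ipr_prime a 1)).1 h1 with h | h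
  · exact h
  · rcases (Nat.dvd_prime (ipr_prime a 2)).1 h2 with h' | h'
    · exact h'
    · exfalso
      have h3 := iter_strictMono (a + 1) 1 2 le_rfl (by norm_num)
      have h4 : ipr a 1 = ipr a 2 := h.symm.trans h'
      unfold ipr at h4
      omega

theorem near_ipr (a : ℕ) : ∃ K : ℕ, Near {p | ∃ x, 1 ≤ x ∧ p = ipr a x} K := by
  obtain ⟨K, hK⟩ := near_even a a
  refine ⟨2 * K, near_of_sums (by norm_num) ?_ hK⟩
  rintro m ⟨_, x, y, hx, hy, rfl, _⟩
  refine ⟨{ipr a x, ipr a y}, by simp, ?_, by simp⟩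
  intro p hp
  simp only [Multiset.insert_eq_cons, Multiset.mem_cons, Multiset.mem_singleton] at hp
  rcases hp with rfl | rfl
  · exact ⟨x, hx, rfl⟩
  · exact ⟨y, hy, rfl⟩

/-- the three statements on sums with few terms -/
theorem sums_all (a b : ℕ) : ∃ K : ℕ,
    (∀ j n : ℕ, ∃ s : ℕ, SumOf {m | Even m ∧ HasRep a b m} (K * j) s ∧ s ≤ n ∧
      n ≤ s + max K ((Nat.log 2)^[j] n)) ∧
    (∀ k n : ℕ, Nat.setGcd {m | Even m ∧ HasRep a b m} ∣ n → K ≤ n → n ≤ tow k →
      SumOf {m | Even m ∧ HasRep a b m} (K * k) n) ∧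
    (∀ k n : ℕ, K ≤ n → n ≤ tow k → SumOf {p | ∃ x, 1 ≤ x ∧ p = ipr a x} (K * k) n) := by
  obtain ⟨K1, h1⟩ := near_even a b
  obtain ⟨K2, h2⟩ := exact_of_near h1
  obtain ⟨K3, h3⟩ := near_ipr a
  obtain ⟨K4, h4⟩ := exact_of_near h3
  have hS : ∀ {G : Set ℕ} {k l n : ℕ}, k ≤ l → SumOf G k n → SumOf G l n := by
    rintro G k l n hkl ⟨s, s1, s2, s3⟩
    exact ⟨s, s1.trans hkl, s2, s3⟩
  refine ⟨K1 + K2 + K4, ?_, ?_, ?_⟩
  · intro j n
    obtain ⟨s, s1, s2, s3⟩ := h1 j n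
    refine ⟨s, hS (by gcongr; omega) s1, s2, s3.trans ?_⟩
    gcongr
    omega
  · intro k n hg hK hk
    exact hS (by gcongr; omega) (h2 k n hg (by omega) hk)
  · intro k n hK hk
    refine hS (by gcongr; omega) (h4 k n ?_ (by omega) hk)
    rw [setGcd_ipr]
    exact one_dvd n

end Pool.Agent.Lib.MP_e3f158_nt.SN
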