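import Pool.Agent.Lib.MP_e3f158_nt.SN.Schnirelmann

/-!
# From windows at all scales to sums with `log*` many terms
-/

namespace Pool.Agent.Lib.MP_e3f158_nt.SN

open Finset Filter

/-- The tower of twos: `tow 0 = 1`, `tow (k + 1) = 2 ^ tow k`. -/
def tow : ℕ → ℕ
  | 0 => 1
  | k + 1 => 2 ^ tow k

/-- `n` is a sum of at most `k` elements of `G`. -/
def SumOf (G : Set ℕ) (k n : ℕ) : Prop :=
  ∃ s : Multiset ℕ, s.card ≤ k ∧ (∀ x ∈ s, x ∈ G) ∧ s.sum = n

/-- a positive proportion of the windows of length `√(log₂ x)` meets `G`, at every large scale `x` -/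
def Hits (G : Set ℕ) : Prop :=
  ∃ δ : ℝ, 0 < δ ∧ ∀ᶠ x : ℕ in atTop, ∀ W : ℕ, Nat.sqrt (Nat.log 2 x) ≤ W →
    δ * x ≤ (Set.ncard {n : ℕ | 1 ≤ n ∧ n ≤ x ∧ ∃ m, n ≤ m ∧ m ≤ n + W ∧ m ∈ G} : ℝ)

theorem split {G : Set ℕ} {w : ℕ} (u : Multiset ℕ) :
    (∀ t ∈ u, ∃ e, (e = 0 ∨ e ∈ G) ∧ e ≤ t ∧ t ≤ e + w) →
    ∃ s : Multiset ℕ, s.card ≤ u.card ∧ (∀ x ∈ s, x ∈ G) ∧ s.sum ≤ u.sum ∧
      u.sum ≤ s.sum + u.card * w := by
  induction u using Multiset.induction_on with
  | empty => intro _; exact ⟨0, by simp, by simp, by simp, by simp⟩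
  | cons t u ih =>
    intro hu
    obtain ⟨s, h1, h2, h3, h4⟩ := ih (fun x hx => hu x (Multiset.mem_cons_of_mem hx))
    obtain ⟨e, he, h5, h6⟩ := hu t (Multiset.mem_cons_self t u)
    rcases he with rfl | he
    · refine ⟨s, by rw [Multiset.card_cons]; omega, h2, by rw [Multiset.sum_cons]; omega, ?_⟩
      rw [Multiset.sum_cons, Multiset.card_cons, add_mul]
      omega
    · refine ⟨e ::ₘ s, by simp [h1], ?_, ?_, ?_⟩
      · intro x hx
        rcases Multiset.mem_cons.1 hx with rfl | hx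
        · exact he
        · exact h2 x hx
      · rw [Multiset.sum_cons, Multiset.sum_cons]; omega
      · rw [Multiset.sum_cons, Multiset.sum_cons, Multiset.card_cons, add_mul]
        omega

theorem cnt_full {A : Set ℕ} {x : ℕ} (h : ∀ t, 1 ≤ t → t ≤ x → t ∈ A) : cnt A x = x := by
  induction x with
  | zero => exact cnt_zero A
  | succ x ih =>
    rw [cnt_succ_mem (h (x + 1) (by omega) le_rfl), ih fun t h1 h2 => h t h1 (by omega)]

theorem step {G : Set ℕ} (hG : Hits G) : ∃ h x0 : ℕ, ∀ n : ℕ,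
    ∃ s : Multiset ℕ, s.card ≤ h ∧ (∀ x ∈ s, x ∈ G) ∧ s.sum ≤ n ∧
      n ≤ s.sum + h * (2 * Nat.sqrt (Nat.log 2 n) + 2 * x0) := by
  classical
  obtain ⟨δ, hδ, hx⟩ := hG
  obtain ⟨x0, hx0⟩ := eventually_atTop.1 hx
  set δ' : ℝ := min (δ / 2) 1 with hδ'
  have hδ'0 : 0 < δ' := lt_min (by linarith) one_pos
  have hδ'1 : δ' ≤ 1 := min_le_right _ _
  obtain ⟨h, hh⟩ := schnirelmann hδ'0
  refine ⟨h, x0, fun N => ?_⟩
  set W := Nat.sqrt (Nat.log 2 N) with hW
  set w := 2 * W + 2 * x0 with hw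
  set A : Set ℕ := {t | (∃ e, (e = 0 ∨ e ∈ G) ∧ e ≤ t ∧ t ≤ e + w) ∨ N < t} with hAdef
  have hA0 : 0 ∈ A := Or.inl ⟨0, Or.inl rfl, le_rfl, Nat.zero_le _⟩
  have hsmall : ∀ x : ℕ, x ≤ N → δ' * x ≤ cnt A x := by
    intro x hxN
    rcases Nat.lt_or_ge w x with hxw | hxw
    · -- large `x`
      have hWx : W ≤ x := by omega
      have hy := hx0 (x - W) (by omega) W (by
        rw [hW]
        exact Nat.sqrt_le_sqrt (Nat.log_mono_right (by omega)))
      have h1 : Set.ncard {n : ℕ | 1 ≤ n ∧ n ≤ x - W ∧ ∃ m, n ≤ m ∧ m ≤ n + W ∧ m ∈ G} ≤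
          cnt A x := by
        unfold cnt
        rw [← Set.ncard_image_of_injective _ (add_left_injective W), ← Set.ncard_coe_finset]
        apply Set.ncard_le_ncard _ (Finset.finite_toSet _)
        rintro t ⟨n, ⟨hn1, hn2, m, hm1, hm2, hm3⟩, rfl⟩
        simp only [coe_filter, mem_Ioc, Set.mem_ofPred_eq]
        refine ⟨⟨by omega, by omega⟩, Or.inl ⟨m, Or.inr hm3, hm2, by omega⟩⟩
      have h2 : (x : ℝ) / 2 ≤ ((x - W : ℕ) : ℝ) := by
        rw [Nat.cast_sub hWx]
        have : (2 * W : ℝ) ≤ x := by exact_mod_cast (by omega : 2 * W ≤ x)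
        linarith
      have h3 : (Set.ncard {n : ℕ | 1 ≤ n ∧ n ≤ x - W ∧ ∃ m, n ≤ m ∧ m ≤ n + W ∧ m ∈ G} : ℝ) ≤
          cnt A x := by exact_mod_cast h1
      calc δ' * x ≤ δ / 2 * x := mul_le_mul_of_nonneg_right (min_le_left _ _) (Nat.cast_nonneg x)
        _ = δ * (x / 2) := by ring
        _ ≤ δ * ((x - W : ℕ) : ℝ) := mul_le_mul_of_nonneg_left h2 hδ.le
        _ ≤ _ := hy.trans h3
    · -- small `x`
      have h1 : cnt A x = x :=
        cnt_full fun t ht1 ht2 => Or.inl ⟨0, Or.inl rfl, Nat.zero_le _, by omega⟩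
      rw [h1]
      have : (0 : ℝ) ≤ x := Nat.cast_nonneg x
      nlinarith
  have hall : ∀ x : ℕ, δ' * x ≤ cnt A x := by
    intro x
    induction x with
    | zero => simp
    | succ x ih =>
      rcases Nat.lt_or_ge N (x + 1) with hlt | hge
      · rw [cnt_succ_mem (show x + 1 ∈ A from Or.inr hlt)]
        push_cast
        linarith
      · exact hsmall _ hge
  obtain ⟨u, hu1, hu2, hu3⟩ := hh A hA0 hall N
  obtain ⟨s, h1, h2, h3, h4⟩ := split (G := G) (w := w) u (by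
    intro t ht
    have ht' : t ≤ N := by
      rw [← hu3]
      exact Multiset.single_le_sum (fun _ _ => Nat.zero_le _) t ht
    rcases hu2 t ht with h | h
    · exact h
    · omega)
  rw [hu1] at h1 h4
  rw [hu3] at h3 h4
  exact ⟨s, h1, h2, h3, h4⟩

theorem exists_big (h x0 : ℕ) : ∃ R : ℕ, ∀ r, R ≤ r →
    h * (2 * Nat.sqrt (Nat.log 2 r) + 2 * x0) ≤ Nat.log 2 r := by
  set q0 := 2 * h + 2 * h * x0 + 1 with hq0
  refine ⟨2 ^ (q0 * q0), fun r hr => ?_⟩
  have h1 : q0 * q0 ≤ Nat.log 2 r := by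
    have := Nat.log_mono_right (b := 2) hr
    rwa [Nat.log_pow (by norm_num)] at this
  set z := Nat.log 2 r
  have h2 : q0 ≤ Nat.sqrt z := Nat.le_sqrt.2 h1
  have h3 : Nat.sqrt z * Nat.sqrt z ≤ z := Nat.sqrt_le z
  refine le_trans ?_ h3
  set q := Nat.sqrt z
  have h4 : 1 ≤ q := by omega
  calc h * (2 * q + 2 * x0) = 2 * h * q + 2 * h * x0 * 1 := by ring
    _ ≤ 2 * h * q + 2 * h * x0 * q := by gcongr
    _ = (2 * h + 2 * h * x0) * q := by ring
    _ ≤ q * q := by gcongr; omega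

/-- Every `n` is up to the `j`-fold logarithm a sum of `O(j)` elements of `G`. -/
def Near (G : Set ℕ) (K : ℕ) : Prop :=
  ∀ j n : ℕ, ∃ s : ℕ, SumOf G (K * j) s ∧ s ≤ n ∧ n ≤ s + max K ((Nat.log 2)^[j] n)

theorem near {G : Set ℕ} (hG : Hits G) : ∃ K : ℕ, Near G K := by
  obtain ⟨h, x0, hs⟩ := step hG
  obtain ⟨R, hR⟩ := exists_big h x0
  refine ⟨max h R, fun j n => ?_⟩
  have hlog : ∀ r, Nat.log 2 r ≤ r := fun r => Nat.log_le_self 2 r
  have main : ∀ j : ℕ, ∃ s : Multiset ℕ, s.card ≤ h * j ∧ (∀ x ∈ s, x ∈ G) ∧ s.sum ≤ n ∧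
      n ≤ s.sum + max R ((Nat.log 2)^[j] n) := by
    intro j
    induction j with
    | zero => exact ⟨0, by simp, by simp, by simp, by simp⟩
    | succ j ih =>
      obtain ⟨s, s1, s2, s3, s4⟩ := ih
      rcases Nat.lt_or_ge (n - s.sum) R with hr | hr
      · exact ⟨s, s1.trans (by gcongr; omega), s2, s3, by
          have := le_max_left R ((Nat.log 2)^[j + 1] n); omega⟩
      · obtain ⟨t, t1, t2, t3, t4⟩ := hs (n - s.sum)
        have h5 := hR _ hr
        refine ⟨s + t, by rw [Multiset.card_add, mul_add, mul_one]; omega, ?_, ?_, ?_⟩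
        · intro x hx
          rcases Multiset.mem_add.1 hx with hx | hx
          · exact s2 x hx
          · exact t2 x hx
        · rw [Multiset.sum_add]; omega
        · rw [Multiset.sum_add, Function.iterate_succ_apply']
          have h6 : n - s.sum ≤ max R ((Nat.log 2)^[j] n) := by omega
          have h7 : Nat.log 2 (n - s.sum) ≤ max R (Nat.log 2 ((Nat.log 2)^[j] n)) := by
            rcases le_max_iff.1 h6 with h8 | h8
            · exact (hlog _).trans (h8.trans (le_max_left _ _))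
            · exact (Nat.log_mono_right h8).trans (le_max_right _ _)
          omega
  obtain ⟨s, s1, s2, s3, s4⟩ := main j
  refine ⟨s.sum, ⟨s, s1.trans (by gcongr; exact le_max_left _ _), s2, rfl⟩, s3, s4.trans ?_⟩
  gcongr
  exact le_max_right _ _

theorem iterate_log_le {k : ℕ} : ∀ {n : ℕ}, n ≤ tow k → (Nat.log 2)^[k] n ≤ 1 := by
  induction k with
  | zero => intro n h; simpa [tow] using h
  | succ k ih =>
    intro n h
    rw [Function.iterate_succ_apply]
    apply ih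
    have := Nat.log_mono_right (b := 2) h
    rwa [tow, Nat.log_pow (by norm_num)] at this

theorem iterate_log_mono {k : ℕ} : ∀ {m n : ℕ}, m ≤ n →
    (Nat.log 2)^[k] m ≤ (Nat.log 2)^[k] n := by
  induction k with
  | zero => intro m n h; simpa using h
  | succ k ih =>
    intro m n h
    rw [Function.iterate_succ_apply, Function.iterate_succ_apply]
    exact ih (Nat.log_mono_right h)

theorem bounded_closure (G : Set ℕ) (R : ℕ) : ∃ B : ℕ, ∀ v ≤ R,
    v ∈ AddSubmonoid.closure G → SumOf G B v := by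
  induction R with
  | zero =>
    refine ⟨0, fun v hv _ => ⟨0, by simp, by simp, ?_⟩⟩
    simp at hv
    simp [hv]
  | succ R ih =>
    obtain ⟨B, hB⟩ := ih
    by_cases hR : R + 1 ∈ AddSubmonoid.closure G
    · obtain ⟨u, hu1, hu2⟩ := AddSubmonoid.exists_multiset_of_mem_closure hR
      refine ⟨max B u.card, fun v hv hc => ?_⟩
      rcases Nat.lt_or_ge R v with h | h
      · obtain rfl : v = R + 1 := by omega
        exact ⟨u, le_max_right _ _, hu1, hu2⟩
      · obtain ⟨s, s1, s2, s3⟩ := hB v h hc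
        exact ⟨s, s1.trans (le_max_left _ _), s2, s3⟩
    · refine ⟨B, fun v hv hc => ?_⟩
      rcases Nat.lt_or_ge R v with h | h
      · obtain rfl : v = R + 1 := by omega
        exact absurd hc hR
      · exact hB v h hc

/-- Every large multiple of `gcd G` is a sum of `O(log* n)` elements of `G`. -/
theorem exact_of_near {G : Set ℕ} {K : ℕ} (h : Near G K) : ∃ K' : ℕ, ∀ k n : ℕ,
    Nat.setGcd G ∣ n → K' ≤ n → n ≤ tow k → SumOf G (K' * k) n := by
  obtain ⟨M0, hM0⟩ := Nat.exists_mem_closure_of_ge G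
  set g := Nat.setGcd G with hg
  obtain ⟨B, hB⟩ := bounded_closure G (g * M0 + (K + 1))
  refine ⟨K + B + g * M0 + 2, fun k n hgn hn hk => ?_⟩
  have hg0 : 0 < g := by
    rcases Nat.eq_zero_or_pos g with h0 | h0
    · rw [h0, zero_dvd_iff] at hgn
      omega
    · exact h0
  have hM : M0 ≤ g * M0 := Nat.le_mul_of_pos_left M0 hg0
  have hk1 : 1 ≤ k := by
    rcases Nat.eq_zero_or_pos k with h0 | h0
    · subst h0
      simp only [tow] at hk
      omega
    · exact h0
  obtain ⟨m, ⟨s, s1, s2, s3⟩, s4, s5⟩ := h k (n - g * M0)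
  have h1 : (Nat.log 2)^[k] (n - g * M0) ≤ 1 :=
    (iterate_log_mono (Nat.sub_le _ _)).trans (iterate_log_le hk)
  have h2 : n - m ≤ g * M0 + (K + 1) := by
    have : max K ((Nat.log 2)^[k] (n - g * M0)) ≤ K + 1 := max_le (by omega) (by omega)
    omega
  have h3 : g ∣ n - m := by
    apply Nat.dvd_sub hgn
    rw [← s3]
    exact Multiset.dvd_sum fun x hx => Nat.setGcd_dvd_of_mem (s2 x hx)
  have h4 : M0 ≤ n - m := by omega
  obtain ⟨u, u1, u2, u3⟩ := hB (n - m) h2 (hM0 _ h4 h3)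
  refine ⟨s + u, ?_, ?_, ?_⟩
  · rw [Multiset.card_add]
    calc s.card + u.card ≤ K * k + B * 1 := by omega
      _ ≤ K * k + B * k := by gcongr
      _ ≤ (K + B + g * M0 + 2) * k := by nlinarith
  · intro x hx
    rcases Multiset.mem_add.1 hx with hx | hx
    · exact s2 x hx
    · exact u2 x hx
  · rw [Multiset.sum_add, s3, u3]; omega

theorem near_of_sums {G G' : Set ℕ} {K c : ℕ} (hc : 1 ≤ c) (hG : ∀ x ∈ G, SumOf G' c x)
    (h : Near G K) : Near G' (c * K) := by
  have key : ∀ s : Multiset ℕ, (∀ x ∈ s, x ∈ G) → SumOf G' (c * s.card) s.sum := by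
    intro s
    induction s using Multiset.induction_on with
    | empty => intro _; exact ⟨0, by simp, by simp, by simp⟩
    | cons t u ih =>
      intro hs
      obtain ⟨a, a1, a2, a3⟩ := ih (fun x hx => hs x (Multiset.mem_cons_of_mem hx))
      obtain ⟨b, b1, b2, b3⟩ := hG t (hs t (Multiset.mem_cons_self t u))
      refine ⟨b + a, ?_, ?_, ?_⟩
      · rw [Multiset.card_add, Multiset.card_cons, mul_add, mul_one]; omega
      · intro x hx
        rcases Multiset.mem_add.1 hx with hx | hx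
        · exact b2 x hx
        · exact a2 x hx
      · rw [Multiset.sum_add, Multiset.sum_cons, a3, b3]
  intro j n
  obtain ⟨m, ⟨s, s1, s2, s3⟩, s4, s5⟩ := h j n
  obtain ⟨t, t1, t2, t3⟩ := key s s2
  refine ⟨m, ⟨t, ?_, t2, by rw [t3, s3]⟩, s4, s5.trans ?_⟩
  · calc t.card ≤ c * s.card := t1
      _ ≤ c * (K * j) := by gcongr
      _ = c * K * j := by ring
  · gcongr
    exact Nat.le_mul_of_pos_left K hc

end Pool.Agent.Lib.MP_e3f158_nt.SN
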