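import Mathlib

/-!
# Schnirelmann's inequality and its consequence for sumsets
-/

namespace Pool.Agent.Lib.MP_e3f158_nt.SN

open Finset
open scoped Pointwise

/-- The number of elements of `A` in `[1, n]`. -/
noncomputable def cnt (A : Set ℕ) (n : ℕ) : ℕ := by
  classical exact ((Ioc 0 n).filter (· ∈ A)).card

theorem cnt_zero (A : Set ℕ) : cnt A 0 = 0 := by
  simp [cnt]

theorem cnt_mono (A : Set ℕ) {a n : ℕ} (h : a ≤ n) : cnt A a ≤ cnt A n := by
  classical
  unfold cnt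
  apply card_le_card
  intro x hx
  simp only [mem_filter, mem_Ioc] at hx ⊢
  exact ⟨⟨hx.1.1, hx.1.2.trans h⟩, hx.2⟩

theorem cnt_le (A : Set ℕ) (n : ℕ) : cnt A n ≤ n := by
  classical
  unfold cnt
  refine (card_filter_le _ _).trans ?_
  simp

theorem cnt_succ_mem {A : Set ℕ} {n : ℕ} (h : n + 1 ∈ A) : cnt A (n + 1) = cnt A n + 1 := by
  classical
  unfold cnt
  have : (Ioc 0 (n + 1)).filter (· ∈ A) = insert (n + 1) ((Ioc 0 n).filter (· ∈ A)) := by
    ext x
    simp only [mem_filter, mem_Ioc, mem_insert]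
    constructor
    · rintro ⟨⟨h1, h2⟩, h3⟩
      rcases Nat.lt_or_ge n x with hx | hx
      · left; omega
      · right; exact ⟨⟨h1, hx⟩, h3⟩
    · rintro (rfl | ⟨⟨h1, h2⟩, h3⟩)
      · exact ⟨⟨by omega, le_rfl⟩, h⟩
      · exact ⟨⟨h1, by omega⟩, h3⟩
  rw [this, card_insert_of_notMem]
  simp

theorem cnt_gap {A : Set ℕ} {a n : ℕ} (h : a ≤ n) (hg : ∀ k, a < k → k ≤ n → k ∉ A) :
    cnt A n = cnt A a := by
  classical
  unfold cnt
  congr 1
  ext x
  simp only [mem_filter, mem_Ioc]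
  constructor
  · rintro ⟨⟨h1, h2⟩, h3⟩
    refine ⟨⟨h1, ?_⟩, h3⟩
    by_contra hx
    exact hg x (by omega) h2 h3
  · rintro ⟨⟨h1, h2⟩, h3⟩
    exact ⟨⟨h1, by omega⟩, h3⟩

theorem cnt_add_ge {A B : Set ℕ} {a n : ℕ} (ha : a ∈ A) (h : a ≤ n) :
    cnt (A + B) a + cnt B (n - a) ≤ cnt (A + B) n := by
  classical
  unfold cnt
  have hinj : ((Ioc 0 (n - a)).filter (· ∈ B)).card =
      (((Ioc 0 (n - a)).filter (· ∈ B)).image (a + ·)).card :=
    (card_image_of_injective _ (add_right_injective a)).symm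
  rw [hinj, ← card_union_of_disjoint]
  · apply card_le_card
    intro x hx
    simp only [mem_union, mem_filter, mem_Ioc, mem_image] at hx ⊢
    rcases hx with ⟨⟨h1, h2⟩, h3⟩ | ⟨b, ⟨⟨h1, h2⟩, h3⟩, rfl⟩
    · exact ⟨⟨h1, by omega⟩, h3⟩
    · exact ⟨⟨by omega, by omega⟩, Set.add_mem_add ha h3⟩
  · rw [disjoint_left]
    intro x hx hx'
    simp only [mem_filter, mem_Ioc, mem_image] at hx hx'
    obtain ⟨b, ⟨⟨h1, h2⟩, h3⟩, rfl⟩ := hx'
    omega

/-- Schnirelmann's inequality. -/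
theorem sch_ineq {A B : Set ℕ} (hA : 0 ∈ A) (hB : 0 ∈ B) {β : ℝ}
    (hβ : ∀ n : ℕ, β * n ≤ cnt B n) (n : ℕ) :
    (cnt A n : ℝ) + β * (n - cnt A n) ≤ cnt (A + B) n := by
  classical
  induction n using Nat.strong_induction_on with
  | _ n ih =>
    rcases Nat.eq_zero_or_pos n with h0 | hn
    · subst h0
      simp [cnt_zero]
    by_cases hnA : n ∈ A
    · obtain ⟨m, rfl⟩ : ∃ m, n = m + 1 := ⟨n - 1, by omega⟩
      have h1 := ih m (by omega)
      have h2 : m + 1 ∈ A + B := ⟨m + 1, hnA, 0, hB, by simp⟩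
      rw [cnt_succ_mem hnA, cnt_succ_mem h2]
      push_cast
      nlinarith
    · set a := Nat.findGreatest (· ∈ A) n with ha
      have h1 : a ∈ A := Nat.findGreatest_spec (P := (· ∈ A)) (Nat.zero_le n) hA
      have h2 : a ≤ n := Nat.findGreatest_le n
      have h3 : a ≠ n := by
        intro h
        rw [h] at h1
        exact hnA h1
      have h4 : ∀ k, a < k → k ≤ n → k ∉ A := fun k hk hk' =>
        Nat.findGreatest_is_greatest hk hk'
      have h5 := ih a (by omega)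
      have h6 := cnt_add_ge (A := A) (B := B) h1 h2
      have h7 := hβ (n - a)
      rw [Nat.cast_sub h2] at h7
      rw [cnt_gap h2 h4]
      have h8 : (cnt (A + B) a : ℝ) + cnt B (n - a) ≤ cnt (A + B) n := by exact_mod_cast h6
      nlinarith

/-- `h`-fold sums. -/
def sums (A : Set ℕ) : ℕ → Set ℕ
  | 0 => {0}
  | h + 1 => A + sums A h

theorem zero_mem_sums {A : Set ℕ} (hA : 0 ∈ A) (h : ℕ) : 0 ∈ sums A h := by
  induction h with
  | zero => simp [sums]
  | succ h ih => exact ⟨0, hA, 0, ih, rfl⟩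

theorem exists_of_mem_sums {A : Set ℕ} (h : ℕ) : ∀ n ∈ sums A h,
    ∃ s : Multiset ℕ, s.card = h ∧ (∀ x ∈ s, x ∈ A) ∧ s.sum = n := by
  induction h with
  | zero =>
    intro n hn
    simp only [sums, Set.mem_singleton_iff] at hn
    exact ⟨0, by simp, by simp, by simp [hn]⟩
  | succ h ih =>
    rintro n ⟨a, ha, m, hm, rfl⟩
    obtain ⟨s, h1, h2, h3⟩ := ih m hm
    refine ⟨a ::ₘ s, by simp [h1], ?_, by simp [h3]⟩
    intro x hx
    rcases Multiset.mem_cons.1 hx with rfl | hx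
    · exact ha
    · exact h2 x hx

theorem cnt_sums {A : Set ℕ} (hA : 0 ∈ A) {δ : ℝ} (hδ1 : δ ≤ 1)
    (hδ : ∀ n : ℕ, δ * n ≤ cnt A n) (h : ℕ) (n : ℕ) :
    (1 - (1 - δ) ^ h) * n ≤ cnt (sums A h) n := by
  induction h generalizing n with
  | zero => simp
  | succ h ih =>
    have h1 := sch_ineq hA (zero_mem_sums hA h) ih n
    have h2 := hδ n
    have h3 : 0 ≤ (1 - δ) ^ h := pow_nonneg (by linarith) h
    change (1 - (1 - δ) ^ (h + 1)) * n ≤ cnt (A + sums A h) n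
    rw [pow_succ]
    nlinarith

/-- Schnirelmann's theorem: the number of summands depends on the density only. -/
theorem schnirelmann {δ : ℝ} (hδ0 : 0 < δ) : ∃ h : ℕ, ∀ A : Set ℕ, 0 ∈ A →
    (∀ n : ℕ, δ * n ≤ cnt A n) → ∀ n : ℕ,
    ∃ s : Multiset ℕ, s.card = h ∧ (∀ x ∈ s, x ∈ A) ∧ s.sum = n := by
  classical
  obtain ⟨h, hh⟩ : ∃ h : ℕ, (1 - min δ 1) ^ h < 1 / 2 :=
    exists_pow_lt_of_lt_one (by norm_num) (by
      have : 0 < min δ 1 := lt_min hδ0 one_pos
      linarith)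
  refine ⟨h + h, fun A hA hδ n => ?_⟩
  have hδ' : ∀ n : ℕ, min δ 1 * n ≤ cnt A n := fun n =>
    (mul_le_mul_of_nonneg_right (min_le_left _ _) (Nat.cast_nonneg n)).trans (hδ n)
  have h1 := cnt_sums hA (min_le_right _ _) hδ' h
  have hd : (1 / 2 : ℝ) ≤ schnirelmannDensity (sums A h) := by
    rw [le_schnirelmannDensity_iff]
    intro n hn
    have h2 := h1 n
    have hn' : (0 : ℝ) < n := by exact_mod_cast hn
    rw [le_div_iff₀ hn']
    have h3 : (cnt (sums A h) n : ℝ) = ((Ioc 0 n).filter (· ∈ sums A h)).card := by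
      unfold cnt
      congr
    rw [← h3]
    refine le_trans ?_ h2
    apply mul_le_mul_of_nonneg_right _ hn'.le
    linarith
  have huniv := add_eq_univ_of_one_le_schirelmannDensity_add_schnirelmannDensity
    (zero_mem_sums hA h) (zero_mem_sums hA h) (by linarith)
  have hn : n ∈ sums A h + sums A h := by
    rw [huniv]; trivial
  obtain ⟨x, hx, y, hy, rfl⟩ := hn
  obtain ⟨s, s1, s2, s3⟩ := exists_of_mem_sums h x hx
  obtain ⟨t, t1, t2, t3⟩ := exists_of_mem_sums h y hy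
  refine ⟨s + t, by simp [s1, t1], ?_, by simp [s3, t3]⟩
  intro z hz
  rcases Multiset.mem_add.1 hz with hz | hz
  · exact s2 z hz
  · exact t2 z hz

end Pool.Agent.Lib.MP_e3f158_nt.SN
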